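import Pool.Agent.W868.FI.Fin
import Pool.Agent.W35.FI.ZN

/-! MP_d941c8_lc.  For every amenable group the class of LCL problems solvable by factors of iid
does not depend on the base space.

The definitions (files Defs and Stms2 of Pool/Agent/W868/FI):
`sh γ x = fun δ => x (δ * γ)` is the action of the problem file; `iid Γ μ` is the product measure
`μ^Γ`; `LCL Γ` is the type of triples (finite label set, finite window, set of patterns);
`freePart Γ X` is the free part; `FIID Γ μ` is the set of LCL problems that have a labeling on an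
invariant subset `U` of the free part, conull in the free part, with level sets measurable for the
completed measure; `Amen Γ` says that `Γ` has Folner sets. -/

open MeasureTheory Set

namespace Pool.Agent.Results.MP_d941c8_lc.AmenableBaseSpace

open Pool.Agent.W868.FI

/-- the class `FIID(X, μ, Γ)` is the same for all standard probability spaces which are not
concentrated on a point -/
def Indep (Γ : Type) [Group Γ] : Prop :=
  ∀ (X Y : Type) [MeasurableSpace X] [StandardBorelSpace X] [MeasurableSpace Y]
    [StandardBorelSpace Y] (μ : Measure X) [IsProbabilityMeasure μ] (ν : Measure Y)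
    [IsProbabilityMeasure ν], (∀ x, μ {x} ≠ 1) → (∀ y, ν {y} ≠ 1) → FIID Γ μ = FIID Γ ν

theorem fg_countable (G : Type) [Group G] [h : Group.FG G] : Countable G := by
  obtain ⟨S, hS, hf⟩ := Group.fg_iff.1 h
  have := hf.to_subtype
  have hsurj : Function.Surjective (FreeGroup.lift ((↑) : S → G)) := by
    rw [← MonoidHom.range_eq_top, FreeGroup.range_lift_eq_closure]
    simpa using hS
  have : Countable (FreeGroup S) := by
    unfold FreeGroup; infer_instance
  exact hsurj.countable

theorem result :
    (∀ (Γ : Type) [Group Γ] [Countable Γ], Amen Γ → Indep Γ) ∧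
    (∀ n : ℕ, Indep (Multiplicative (Fin n → ℤ))) ∧
    ((∀ (Γ : Type) [Group Γ] [Group.FG Γ], ¬ Amen Γ → Indep Γ) →
      ∀ (Γ : Type) [Group Γ] [Group.FG Γ], Indep Γ) := by
  have h1 : ∀ (Γ : Type) [Group Γ] [Countable Γ], Amen Γ → Indep Γ := by
    intro Γ _ _ hA X Y _ _ _ _ μ _ ν _ hμ hν
    exact fiid_eq hA μ ν hμ hν
  have h2 : ∀ n : ℕ, Indep (Multiplicative (Fin n → ℤ)) := by
    intro n
    have : Countable (Multiplicative (Fin n → ℤ)) :=
      (Multiplicative.toAdd (α := Fin n → ℤ)).injective.countable
    exact h1 _ (Pool.Agent.W35.FI.amen_zn n)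
  refine ⟨h1, h2, ?_⟩
  intro hB Γ _ _
  have := fg_countable Γ
  by_cases hA : Amen Γ
  · exact h1 Γ hA
  · exact hB Γ hA

end Pool.Agent.Results.MP_d941c8_lc.AmenableBaseSpace
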